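import Mathlib
import Pool.Agent.V11108.KB

/-!
# MP_9e49d7: average shadowing with a full-support measure but no dense minimal points

The example is the subshift of all `x ∈ {0,1}^ℕ` in which every `1` is followed, within
`2 * 16 ^ (k ^ 2)` steps, by a run of `k` zeros, for every `k`.
-/

set_option autoImplicit false
open Filter Topology MeasureTheory

namespace Pool.Agent.Results.MP_9e49d7_an.ZeroRuns

/-! ## The notions of the problem -/

/-- The average shadowing property. -/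
def ASP {X : Type} [MetricSpace X] (f : X → X) : Prop :=
  ∀ ε : ℝ, 0 < ε → ∃ δ : ℝ, 0 < δ ∧ ∀ x : ℕ → X,
    (∃ N : ℕ, ∀ n ≥ N, ∀ k : ℕ,
      (∑ i ∈ Finset.range n, dist (f (x (i + k))) (x (i + k + 1))) / (n : ℝ) < δ) →
    ∃ z : X, limsup (fun n : ℕ => (∑ i ∈ Finset.range n, dist (f^[i] z) (x i)) / (n : ℝ)) atTop < ε

/-- The asymptotic average shadowing property. -/
def AASP {X : Type} [MetricSpace X] (f : X → X) : Prop :=
  ∀ x : ℕ → X,
    Tendsto (fun n : ℕ => (∑ i ∈ Finset.range n, dist (f (x i)) (x (i + 1))) / (n : ℝ)) atTop (𝓝 0) →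
    ∃ z : X,
      Tendsto (fun n : ℕ => (∑ i ∈ Finset.range n, dist (f^[i] z) (x i)) / (n : ℝ)) atTop (𝓝 0)

/-- The orbit closure of `x`. -/
def orbitClosure {X : Type} [MetricSpace X] (f : X → X) (x : X) : Set X :=
  closure (Set.range fun n : ℕ => f^[n] x)

/-- `x` is a minimal point: its orbit closure has no proper nonempty closed invariant subset. -/
def IsMinimalPoint {X : Type} [MetricSpace X] (f : X → X) (x : X) : Prop :=
  ∀ Z : Set X, Z ⊆ orbitClosure f x → IsClosed Z → Z.Nonempty → Set.MapsTo f Z Z →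
    Z = orbitClosure f x

/-- There is an invariant Borel probability measure of full support. -/
def HasFullSupportMeasure {X : Type} [MetricSpace X] (f : X → X) : Prop :=
  ∃ (_ : MeasurableSpace X) (_ : BorelSpace X) (μ : Measure X), IsProbabilityMeasure μ ∧
    MeasurePreserving f μ μ ∧ ∀ U : Set X, IsOpen U → U.Nonempty → 0 < μ U

/-! ## The parameters -/

def h (k : ℕ) : ℕ := 16 ^ (k ^ 2)

def M (k : ℕ) : ℕ := 2 * h k

lemma h_pos (k : ℕ) : 0 < h k := by unfold h; positivity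

lemma h_mono : Monotone h := fun _ _ hab =>
  Nat.pow_le_pow_right (by norm_num) (Nat.pow_le_pow_left hab 2)

lemma M_mono : Monotone M := fun _ _ hab => Nat.mul_le_mul_left 2 (h_mono hab)

lemma k_mul_le (k : ℕ) : k * 2 ^ k ≤ h k := by
  unfold h
  rcases Nat.eq_zero_or_pos k with h0 | h0
  · subst h0; simp
  · calc k * 2 ^ k ≤ 2 ^ k * 2 ^ k := Nat.mul_le_mul_right _ Nat.lt_two_pow_self.le
      _ = 4 ^ k := by rw [← mul_pow]; norm_num
      _ ≤ 16 ^ k := Nat.pow_le_pow_left (by norm_num) k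
      _ ≤ 16 ^ (k ^ 2) := Nat.pow_le_pow_right (by norm_num) (by nlinarith)

lemma k_le_h (k : ℕ) : k ≤ h k :=
  (Nat.le_mul_of_pos_right k (by positivity)).trans (k_mul_le k)

lemma lt_h (k : ℕ) : k < h k := by
  rcases Nat.eq_zero_or_pos k with h0 | h0
  · subst h0; exact h_pos 0
  · have h1 := k_mul_le k
    have h2 : k * 2 ≤ k * 2 ^ k := Nat.mul_le_mul_left k (by
      calc 2 = 2 ^ 1 := rfl
        _ ≤ 2 ^ k := Nat.pow_le_pow_right (by norm_num) h0)
    omega

lemma ratio {L k₁ k : ℕ} (hk₁ : 1 ≤ k₁) (hL : L ≤ k₁) (hk : k₁ < k) :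
    L * k * 2 ^ k * (8 * h k₁) ≤ h k := by
  have h1 : L * k ≤ 4 ^ k := by
    calc L * k ≤ k * k := Nat.mul_le_mul_right k (by omega)
      _ ≤ 2 ^ k * 2 ^ k := Nat.mul_le_mul Nat.lt_two_pow_self.le Nat.lt_two_pow_self.le
      _ = 4 ^ k := by rw [← mul_pow]; norm_num
  obtain ⟨j, rfl⟩ := Nat.exists_eq_add_of_lt hk
  have h2 : (k₁ + j + 1) + k₁ + k₁ ^ 2 ≤ (k₁ + j + 1) ^ 2 := by nlinarith
  unfold h
  calc L * (k₁ + j + 1) * 2 ^ (k₁ + j + 1) * (8 * 16 ^ k₁ ^ 2)
      ≤ 4 ^ (k₁ + j + 1) * 2 ^ (k₁ + j + 1) * (8 * 16 ^ k₁ ^ 2) := by gcongr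
    _ = 8 * (8 ^ (k₁ + j + 1)) * 16 ^ k₁ ^ 2 := by
        have : (8 : ℕ) ^ (k₁ + j + 1) = 4 ^ (k₁ + j + 1) * 2 ^ (k₁ + j + 1) := by
          rw [← mul_pow]; norm_num
        rw [this]; ring
    _ ≤ 16 ^ k₁ * 16 ^ (k₁ + j + 1) * 16 ^ k₁ ^ 2 := by
        have e1 : (8 : ℕ) ≤ 16 ^ k₁ := by
          calc (8 : ℕ) ≤ 16 ^ 1 := by norm_num
            _ ≤ 16 ^ k₁ := Nat.pow_le_pow_right (by norm_num) hk₁
        have e2 : (8 : ℕ) ^ (k₁ + j + 1) ≤ 16 ^ (k₁ + j + 1) :=
          Nat.pow_le_pow_left (by norm_num) _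
        gcongr
    _ = 16 ^ ((k₁ + j + 1) + k₁ + k₁ ^ 2) := by rw [← pow_add, ← pow_add]; congr 1; ring
    _ ≤ 16 ^ (k₁ + j + 1) ^ 2 := Nat.pow_le_pow_right (by norm_num) h2

/-! ## The space -/

/-- one-sided binary sequences -/
def Y : Type := ℕ → Bool

noncomputable instance : MetricSpace Y := PiNat.metricSpace (E := fun _ => Bool)

instance : CompactSpace Y := inferInstanceAs (CompactSpace (ℕ → Bool))

lemma dist_le_iff (x y : Y) (m : ℕ) : dist x y ≤ (1 / 2) ^ m ↔ ∀ i < m, x i = y i := by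
  have := PiNat.mem_cylinder_iff_dist_le (E := fun _ => Bool) (x := y) (y := x) (n := m)
  exact this.symm.trans PiNat.mem_cylinder_iff

lemma dist_le_one (x y : Y) : dist x y ≤ 1 := PiNat.dist_le_one (E := fun _ => Bool) x y

/-- run of `k` zeros of `w` starting in `[p, p + M k)` -/
def Run (w : ℕ → Bool) (k p : ℕ) : Prop :=
  ∃ q, p ≤ q ∧ q < p + M k ∧ ∀ i < k, w (q + i) = false

/-- every one is followed by a run of zeros of every length -/
def Good (w : ℕ → Bool) : Prop := ∀ p, w p = true → ∀ k, Run w k p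

def XS : Set Y := {x | Good x}

/-- the space -/
def X : Type := XS

noncomputable instance : MetricSpace X := inferInstanceAs (MetricSpace XS)

lemma continuous_coord (i : ℕ) : Continuous fun x : Y => x i :=
  (continuous_apply i : Continuous fun x : ℕ → Bool => x i)

lemma isClosed_XS : IsClosed XS := by
  have h1 : XS = ⋂ p : ℕ, ⋂ k : ℕ, {x : Y | x p = true → Run x k p} := by
    ext x
    simp only [XS, Good, Set.mem_ofPred_eq, Set.mem_iInter]
    exact ⟨fun h p k hp => h p hp k, fun h p hp k => h p k hp⟩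
  rw [h1]
  refine isClosed_iInter fun p => isClosed_iInter fun k => ?_
  have h2 : {x : Y | x p = true → Run x k p} = {x : Y | x p = false} ∪
      ⋃ q ∈ Finset.Ico p (p + M k), ⋂ i ∈ Finset.range k, {x : Y | x (q + i) = false} := by
    ext x
    simp only [Set.mem_ofPred_eq, Set.mem_union, Set.mem_iUnion, Set.mem_iInter, Finset.mem_Ico,
      Finset.mem_range, Run]
    constructor
    · intro hx
      by_cases hp : x p = true
      · right
        obtain ⟨q, h1, h2, h3⟩ := hx hp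
        exact ⟨q, ⟨h1, h2⟩, h3⟩
      · left; simpa using hp
    · rintro (hx | ⟨q, ⟨h1, h2⟩, h3⟩) hp
      · rw [hx] at hp; exact absurd hp (by simp)
      · exact ⟨q, h1, h2, h3⟩
  rw [h2]
  refine IsClosed.union (isClosed_eq (continuous_coord p) continuous_const) ?_
  refine (Finset.finite_toSet _).isClosed_biUnion fun q _ => ?_
  exact isClosed_biInter fun i _ => isClosed_eq (continuous_coord _) continuous_const

instance : CompactSpace X := isCompact_iff_compactSpace.mp isClosed_XS.isCompact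

lemma good_shift {w : ℕ → Bool} (hw : Good w) : Good (fun i => w (i + 1)) := by
  intro p hp k
  obtain ⟨q, h1, h2, h3⟩ := hw (p + 1) hp k
  refine ⟨q - 1, by omega, by omega, fun i hi => ?_⟩
  have := h3 i hi
  change w (q - 1 + i + 1) = false
  rw [show q - 1 + i + 1 = q + i by omega]
  exact this

/-- the shift -/
def f (x : X) : X := ⟨fun i => x.1 (i + 1), good_shift x.2⟩

lemma f_apply (x : X) (i : ℕ) : (f x).1 i = x.1 (i + 1) := rfl

lemma iter_apply (x : X) (n i : ℕ) : (f^[n] x).1 i = x.1 (n + i) := by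
  induction n generalizing i with
  | zero => simp
  | succ n ih =>
    rw [Function.iterate_succ_apply', f_apply, ih]
    ring_nf

lemma continuous_f : Continuous f := by
  refine Continuous.subtype_mk ?_ _
  have : Continuous fun x : X => (fun i => x.1 (i + 1) : ℕ → Bool) :=
    continuous_pi fun i => (continuous_coord (i + 1)).comp continuous_subtype_val
  exact this

lemma distX_le_iff (x y : X) (m : ℕ) : dist x y ≤ (1 / 2) ^ m ↔ ∀ i < m, x.1 i = y.1 i :=
  dist_le_iff x.1 y.1 m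

lemma distX_le_one (x y : X) : dist x y ≤ 1 := dist_le_one x.1 y.1

/-! ## Heredity and the level function -/

/-- `p` lies in an inserted block of level `j` -/
def Blk (j p : ℕ) : Prop := h j ≤ p ∧ p % h j < j

/-- The basic construction: insert zero blocks at levels `≥ κ p`, keep the natural runs at levels
`≤ κ p`. -/
noncomputable def fix (w : ℕ → Bool) (κ : ℕ → ℕ) (p : ℕ) : Bool := by
  classical
  exact decide (w p = true ∧ (∀ j ≤ κ p, Run w j p) ∧ ∀ j, κ p ≤ j → ¬ Blk j p)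

lemma fix_true {w : ℕ → Bool} {κ : ℕ → ℕ} {p : ℕ} :
    fix w κ p = true ↔ w p = true ∧ (∀ j ≤ κ p, Run w j p) ∧ ∀ j, κ p ≤ j → ¬ Blk j p := by
  classical
  unfold fix
  exact decide_eq_true_iff

lemma good_fix (w : ℕ → Bool) (κ : ℕ → ℕ)
    (hκ : ∀ p j, κ p < j → ∀ q, q ≤ p + M j → κ q ≤ j) : Good (fix w κ) := by
  intro p hp k
  obtain ⟨h1, h2, h3⟩ := fix_true.1 hp
  rcases le_or_gt k (κ p) with hk | hk
  · obtain ⟨q, hq1, hq2, hq3⟩ := h2 k hk
    refine ⟨q, hq1, hq2, fun i hi => ?_⟩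
    by_contra hcon
    rw [Bool.not_eq_false] at hcon
    have := (fix_true.1 hcon).1
    rw [hq3 i hi] at this
    exact absurd this (by simp)
  · -- the next inserted block
    have hpos := h_pos k
    have hdm := Nat.div_add_mod p (h k)
    have hml := Nat.mod_lt p hpos
    set m := p / h k with hm
    refine ⟨h k * (m + 1), ?_, ?_, fun i hi => ?_⟩
    · rw [Nat.mul_add, mul_one]; omega
    · rw [Nat.mul_add, mul_one]
      unfold M
      omega
    · by_contra hcon
      rw [Bool.not_eq_false] at hcon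
      have h4 := (fix_true.1 hcon).2.2 k
      have hkh := lt_h k
      have hle : κ (h k * (m + 1) + i) ≤ k := by
        refine hκ p k hk _ ?_
        rw [Nat.mul_add, mul_one]
        unfold M
        omega
      refine h4 hle ⟨?_, ?_⟩
      · rw [Nat.mul_add, mul_one]; omega
      · rw [Nat.mul_add_mod, Nat.mod_eq_of_lt (by omega)]
        exact hi

/-! ## Counting -/

open Classical in
/-- the set of `p < n` with `A p` -/
noncomputable def F (A : ℕ → Prop) (n : ℕ) : Finset ℕ := (Finset.range n).filter A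

lemma mem_F {A : ℕ → Prop} {n p : ℕ} : p ∈ F A n ↔ p < n ∧ A p := by
  classical
  unfold F
  rw [Finset.mem_filter, Finset.mem_range]

/-- number of `p < n` with `A p` -/
noncomputable def cnt (A : ℕ → Prop) (n : ℕ) : ℕ := (F A n).card

lemma cnt_mono {A B : ℕ → Prop} {n : ℕ} (hAB : ∀ p < n, A p → B p) : cnt A n ≤ cnt B n :=
  Finset.card_le_card fun _ hp => mem_F.2 ⟨(mem_F.1 hp).1, hAB _ (mem_F.1 hp).1 (mem_F.1 hp).2⟩

lemma cnt_le (A : ℕ → Prop) (n : ℕ) : cnt A n ≤ n := by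
  have : F A n ⊆ Finset.range n := fun p hp => Finset.mem_range.2 (mem_F.1 hp).1
  exact (Finset.card_le_card this).trans (by simp)

lemma cnt_or (A B : ℕ → Prop) (n : ℕ) : cnt (fun p => A p ∨ B p) n ≤ cnt A n + cnt B n := by
  refine le_trans (Finset.card_le_card (t := F A n ∪ F B n) fun p hp => ?_)
    (Finset.card_union_le _ _)
  obtain ⟨h1, h2⟩ := mem_F.1 hp
  rw [Finset.mem_union, mem_F, mem_F]
  exact h2.imp (fun h => ⟨h1, h⟩) (fun h => ⟨h1, h⟩)

lemma cnt_mono_right (A : ℕ → Prop) {n m : ℕ} (hnm : n ≤ m) : cnt A n ≤ cnt A m :=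
  Finset.card_le_card fun _ hp => mem_F.2 ⟨(mem_F.1 hp).1.trans_le hnm, (mem_F.1 hp).2⟩

lemma cnt_shift (A : ℕ → Prop) (t n : ℕ) : cnt (fun p => A (p + t)) n ≤ cnt A (n + t) := by
  refine Finset.card_le_card_of_injOn (fun p => p + t) (fun p hp => ?_)
    (fun a _ b _ hab => by simpa using hab)
  obtain ⟨h1, h2⟩ := mem_F.1 (Finset.mem_coe.1 hp)
  exact Finset.mem_coe.2 (mem_F.2 ⟨Nat.add_lt_add_right h1 t, h2⟩)

lemma cnt_exists_shift (A : ℕ → Prop) (L n : ℕ) :
    cnt (fun p => ∃ t < L, A (p + t)) n ≤ L * cnt A (n + L) := by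
  have h1 : cnt (fun p => ∃ t < L, A (p + t)) n ≤
      ∑ t ∈ Finset.range L, cnt (fun p => A (p + t)) n := by
    refine le_trans (Finset.card_le_card
      (t := (Finset.range L).biUnion fun t => F (fun p => A (p + t)) n) ?_) Finset.card_biUnion_le
    intro p hp
    obtain ⟨hp1, t, ht, hA⟩ := mem_F.1 hp
    rw [Finset.mem_biUnion]
    exact ⟨t, Finset.mem_range.2 ht, mem_F.2 ⟨hp1, hA⟩⟩
  refine h1.trans ?_
  calc ∑ t ∈ Finset.range L, cnt (fun p => A (p + t)) n ≤ ∑ t ∈ Finset.range L, cnt A (n + L) :=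
        Finset.sum_le_sum fun t ht => (cnt_shift A t n).trans
          (cnt_mono_right A (by have := Finset.mem_range.1 ht; omega))
    _ = L * cnt A (n + L) := by simp

lemma cnt_Blk (j n : ℕ) : cnt (Blk j) n ≤ (n / h j) * j := by
  have h1 : (Finset.Icc 1 (n / h j) ×ˢ Finset.range j).card = (n / h j) * j := by simp
  rw [← h1]
  refine Finset.card_le_card_of_injOn (fun p => (p / h j, p % h j)) (fun p hp => ?_)
    (fun a _ b _ hab => ?_)
  · obtain ⟨hpn, hp1, hp2⟩ := mem_F.1 (Finset.mem_coe.1 hp)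
    rw [Finset.mem_coe, Finset.mem_product, Finset.mem_Icc, Finset.mem_range]
    exact ⟨⟨Nat.div_pos hp1 (h_pos j), Nat.div_le_div_right hpn.le⟩, hp2⟩
  · simp only [Prod.mk.injEq] at hab
    rw [← Nat.div_add_mod a (h j), ← Nat.div_add_mod b (h j), hab.1, hab.2]

lemma cnt_Blk_le (j n : ℕ) : (cnt (Blk j) n : ℝ) ≤ n * (1 / 2) ^ j := by
  have h1 : (cnt (Blk j) n : ℝ) ≤ ((n / h j : ℕ) : ℝ) * j := by exact_mod_cast cnt_Blk j n
  have hpos : (0 : ℝ) < h j := by exact_mod_cast h_pos j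
  have h2 : ((n / h j : ℕ) : ℝ) ≤ (n : ℝ) / h j := Nat.cast_div_le
  have h3 : (j : ℝ) * 2 ^ j ≤ h j := by exact_mod_cast k_mul_le j
  calc (cnt (Blk j) n : ℝ) ≤ (n : ℝ) / h j * j := h1.trans (by gcongr)
    _ = n * (j / h j) := by ring
    _ ≤ n * (1 / 2) ^ j := by
        gcongr
        rw [div_le_iff₀ hpos, one_div, inv_pow, inv_mul_eq_div, le_div_iff₀ (by positivity)]
        exact h3

lemma geom_tail (K n : ℕ) : ∑ j ∈ Finset.Ico K n, (1 / 2 : ℝ) ^ j ≤ 2 * (1 / 2) ^ K := by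
  have h1 : ∑ j ∈ Finset.Ico K n, (1 / 2 : ℝ) ^ j = ∑ i ∈ Finset.range (n - K), (1 / 2 : ℝ) ^ (K + i) := by
    rw [Finset.sum_Ico_eq_sum_range]
  rw [h1]
  have h2 : ∀ i, (1 / 2 : ℝ) ^ (K + i) = (1 / 2) ^ K * (1 / 2) ^ i := fun i => pow_add _ _ _
  simp_rw [h2]
  rw [← Finset.mul_sum, mul_comm]
  gcongr
  have h3 := (summable_geometric_of_lt_one (by norm_num : (0 : ℝ) ≤ 1 / 2) (by norm_num)).sum_le_tsum
    (Finset.range (n - K)) (fun i _ => by positivity)
  rw [tsum_geometric_of_lt_one (by norm_num) (by norm_num)] at h3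
  norm_num at h3 ⊢
  exact h3

lemma cnt_Blk_tail (K n : ℕ) :
    (cnt (fun p => ∃ j, K ≤ j ∧ Blk j p) n : ℝ) ≤ n * (2 * (1 / 2) ^ K) := by
  have h1 : cnt (fun p => ∃ j, K ≤ j ∧ Blk j p) n ≤ ∑ j ∈ Finset.Ico K n, cnt (Blk j) n := by
    refine le_trans (Finset.card_le_card
      (t := (Finset.Ico K n).biUnion fun j => F (Blk j) n) ?_) Finset.card_biUnion_le
    intro p hp
    obtain ⟨hpn, j, hKj, hj⟩ := mem_F.1 hp
    rw [Finset.mem_biUnion]
    have := lt_h j
    have := hj.1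
    exact ⟨j, Finset.mem_Ico.2 ⟨hKj, by omega⟩, mem_F.2 ⟨hpn, hj⟩⟩
  calc (cnt (fun p => ∃ j, K ≤ j ∧ Blk j p) n : ℝ) ≤ ∑ j ∈ Finset.Ico K n, (cnt (Blk j) n : ℝ) := by
        exact_mod_cast h1
    _ ≤ ∑ j ∈ Finset.Ico K n, (n : ℝ) * (1 / 2) ^ j := Finset.sum_le_sum fun j _ => cnt_Blk_le j n
    _ = n * ∑ j ∈ Finset.Ico K n, (1 / 2 : ℝ) ^ j := by rw [Finset.mul_sum]
    _ ≤ n * (2 * (1 / 2) ^ K) := by
        gcongr
        exact geom_tail K n

/-! ## Tracing -/

lemma sum_ite_cnt (A : ℕ → Prop) [DecidablePred A] (n : ℕ) :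
    ∑ i ∈ Finset.range n, (if A i then (1 : ℝ) else 0) = cnt A n := by
  rw [Finset.sum_boole]
  unfold cnt
  congr 2
  ext p
  rw [mem_F, Finset.mem_filter, Finset.mem_range]

/-- the zero coordinates -/
def wd (x : ℕ → X) (i : ℕ) : Bool := (x i).1 0

/-- a jump visible in the first `L` coordinates -/
def Jmp (L : ℕ) (x : ℕ → X) (i : ℕ) : Prop := ¬ ∀ t < L, (f (x i)).1 t = (x (i + 1)).1 t

/-- the word `wd x` differs from `x i` in the window of length `L` -/
def Bad (L : ℕ) (x : ℕ → X) (i : ℕ) : Prop := ∃ t < L, wd x (i + t) ≠ (x i).1 t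

lemma Bad_mono {L L' : ℕ} (hL : L ≤ L') {x : ℕ → X} {i : ℕ} (hb : Bad L x i) : Bad L' x i := by
  obtain ⟨t, ht, h1⟩ := hb
  exact ⟨t, ht.trans_le hL, h1⟩

lemma jmp_of_bad {L : ℕ} {x : ℕ → X} {i : ℕ} (hb : Bad L x i) : ∃ s < L, Jmp L x (i + s) := by
  by_contra hcon
  push Not at hcon
  have hno : ∀ s < L, ∀ t < L, (f (x (i + s))).1 t = (x (i + s + 1)).1 t := by
    intro s hs
    have := hcon s hs
    unfold Jmp at this
    push Not at this
    exact this
  have hind : ∀ s r, s + r < L → (x (i + s)).1 r = (x i).1 (s + r) := by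
    intro s
    induction s with
    | zero => intro r _; simp
    | succ s ih =>
      intro r hr
      have h1 := hno s (by omega) r (by omega)
      rw [f_apply] at h1
      change (x (i + s + 1)).1 r = _
      rw [← h1, ih (r + 1) (by omega)]
      exact congrArg (x i).1 (by omega)
  obtain ⟨t, ht, h1⟩ := hb
  apply h1
  have := hind t 0 (by omega)
  rw [add_zero] at this
  exact this

/-- total error of the pseudo-orbit -/
noncomputable def Er (x : ℕ → X) (n : ℕ) : ℝ := ∑ i ∈ Finset.range n, dist (f (x i)) (x (i + 1))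

lemma Er_nonneg (x : ℕ → X) (n : ℕ) : 0 ≤ Er x n := Finset.sum_nonneg fun _ _ => dist_nonneg

lemma cnt_Jmp (L : ℕ) (x : ℕ → X) (n : ℕ) : (cnt (Jmp L x) n : ℝ) ≤ 2 ^ L * Er x n := by
  classical
  rw [← sum_ite_cnt]
  unfold Er
  rw [Finset.mul_sum]
  refine Finset.sum_le_sum fun i _ => ?_
  split_ifs with hj
  · have h1 : ¬ dist (f (x i)) (x (i + 1)) ≤ (1 / 2) ^ L := by
      rw [distX_le_iff]
      exact hj
    push Not at h1
    calc (1 : ℝ) = 2 ^ L * (1 / 2) ^ L := by rw [← mul_pow]; norm_num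
      _ ≤ 2 ^ L * dist (f (x i)) (x (i + 1)) := by gcongr
  · positivity

lemma cnt_Bad (L : ℕ) (x : ℕ → X) (n : ℕ) :
    (cnt (Bad L x) n : ℝ) ≤ L * (2 ^ L * Er x (n + L)) := by
  have h1 : cnt (Bad L x) n ≤ L * cnt (Jmp L x) (n + L) :=
    (cnt_mono fun p _ hp => jmp_of_bad hp).trans (cnt_exists_shift (Jmp L x) L n)
  calc (cnt (Bad L x) n : ℝ) ≤ L * cnt (Jmp L x) (n + L) := by exact_mod_cast h1
    _ ≤ _ := by
        gcongr
        exact cnt_Jmp L x (n + L)

lemma trace_bound (L : ℕ) (x : ℕ → X) (z : X) (n : ℕ) :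
    ∑ i ∈ Finset.range n, dist (f^[i] z) (x i) ≤
      n * (1 / 2) ^ L + cnt (Bad L x) n + L * cnt (fun p => z.1 p ≠ wd x p) (n + L) := by
  classical
  have h1 : ∀ i ∈ Finset.range n, dist (f^[i] z) (x i) ≤ (1 / 2) ^ L +
      (if Bad L x i ∨ ∃ t < L, z.1 (i + t) ≠ wd x (i + t) then 1 else 0) := by
    intro i _
    split_ifs with hif
    · have h2 := distX_le_one (f^[i] z) (x i)
      have h3 : (0 : ℝ) ≤ (1 / 2) ^ L := by positivity
      linarith
    · rw [add_zero, distX_le_iff]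
      push Not at hif
      intro t ht
      rw [iter_apply, hif.2 t ht]
      by_contra hne
      exact hif.1 ⟨t, ht, hne⟩
  calc ∑ i ∈ Finset.range n, dist (f^[i] z) (x i) ≤ ∑ i ∈ Finset.range n, ((1 / 2 : ℝ) ^ L +
      (if Bad L x i ∨ ∃ t < L, z.1 (i + t) ≠ wd x (i + t) then 1 else 0)) :=
        Finset.sum_le_sum h1
    _ = n * (1 / 2) ^ L +
        cnt (fun i => Bad L x i ∨ ∃ t < L, z.1 (i + t) ≠ wd x (i + t)) n := by
        rw [Finset.sum_add_distrib, sum_ite_cnt]
        simp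
    _ ≤ n * (1 / 2) ^ L + (cnt (Bad L x) n + L * cnt (fun p => z.1 p ≠ wd x p) (n + L)) := by
        gcongr
        have h2 := (cnt_or (Bad L x) (fun i => ∃ t < L, z.1 (i + t) ≠ wd x (i + t)) n).trans
          (Nat.add_le_add_left (cnt_exists_shift (fun p => z.1 p ≠ wd x p) L n) _)
        exact_mod_cast h2
    _ = _ := by ring

/-- window length controlling the runs up to level `K` -/
def LK (K : ℕ) : ℕ := M K + K

lemma LK_mono : Monotone LK := fun _ _ hab => Nat.add_le_add (M_mono hab) hab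

lemma run_of_not_bad {x : ℕ → X} {p j : ℕ} (hp : wd x p = true) (hb : ¬ Bad (LK j) x p) :
    Run (wd x) j p := by
  unfold Bad at hb
  push Not at hb
  obtain ⟨q, h1, h2, h3⟩ := (x p).2 0 hp j
  refine ⟨p + q, by omega, by omega, fun i hi => ?_⟩
  rw [add_assoc, hb (q + i) (by unfold LK; omega)]
  exact h3 i hi

lemma fix_ne {x : ℕ → X} {κ : ℕ → ℕ} {p : ℕ} (hne : fix (wd x) κ p ≠ wd x p) :
    Bad (LK (κ p)) x p ∨ ∃ j, κ p ≤ j ∧ Blk j p := by
  by_contra hcon
  push Not at hcon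
  apply hne
  by_cases hw : wd x p = true
  · rw [hw, fix_true]
    refine ⟨hw, fun j hj => ?_, hcon.2⟩
    exact run_of_not_bad hw fun hb => hcon.1 (Bad_mono (LK_mono hj) hb)
  · have : ¬ fix (wd x) κ p = true := fun h => hw (fix_true.1 h).1
    rw [Bool.not_eq_true] at hw this
    rw [hw, this]

/-! ### The average shadowing property -/

theorem asp : ASP f := by
  intro ε hε
  obtain ⟨L, hL⟩ := exists_pow_lt_of_lt_one (by positivity : 0 < ε / 8) (by norm_num : (1 / 2 : ℝ) < 1)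
  obtain ⟨K, hK⟩ := exists_pow_lt_of_lt_one (by positivity : 0 < ε / 8 / (2 * L + 1))
    (by norm_num : (1 / 2 : ℝ) < 1)
  have hK' : L * (2 * (1 / 2 : ℝ) ^ K) ≤ ε / 8 := by
    rw [lt_div_iff₀ (by positivity)] at hK
    have : (0 : ℝ) < (1 / 2) ^ K := by positivity
    nlinarith
  set A : ℝ := L * 2 ^ L + L * (LK K * 2 ^ LK K) with hA
  have hA0 : 0 ≤ A := by positivity
  refine ⟨ε / 8 / (A + 1), by positivity, fun x hx => ?_⟩
  set δ : ℝ := ε / 8 / (A + 1) with hδ
  have hδ0 : 0 < δ := by positivity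
  have hδA : δ * A ≤ ε / 8 := by
    rw [hδ, div_mul_eq_mul_div, div_le_iff₀ (by positivity)]
    nlinarith
  obtain ⟨N, hN⟩ := hx
  have hEr : ∀ n ≥ N, Er x n ≤ δ * n := by
    intro n hn
    rcases Nat.eq_zero_or_pos n with h0 | h0
    · subst h0; simp [Er]
    · have h1 := hN n hn 0
      have hn0 : (0 : ℝ) < n := by exact_mod_cast h0
      rw [div_lt_iff₀ hn0] at h1
      exact h1.le
  let z : X := ⟨fix (wd x) (fun _ => K), good_fix _ _ (fun p j hj q _ => hj.le)⟩
  refine ⟨z, ?_⟩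
  -- the number of changes
  have hch : ∀ n, (cnt (fun p => z.1 p ≠ wd x p) n : ℝ) ≤
      LK K * (2 ^ LK K * Er x (n + LK K)) + n * (2 * (1 / 2) ^ K) := by
    intro n
    have h1 : cnt (fun p => z.1 p ≠ wd x p) n ≤ cnt (Bad (LK K) x) n +
        cnt (fun p => ∃ j, K ≤ j ∧ Blk j p) n :=
      (cnt_mono (B := fun p => Bad (LK K) x p ∨ ∃ j, K ≤ j ∧ Blk j p)
        fun p _ hp => fix_ne (κ := fun _ => K) hp).trans (cnt_or _ _ n)
    calc (cnt (fun p => z.1 p ≠ wd x p) n : ℝ) ≤ cnt (Bad (LK K) x) n +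
        cnt (fun p => ∃ j, K ≤ j ∧ Blk j p) n := by exact_mod_cast h1
      _ ≤ _ := add_le_add (cnt_Bad _ x n) (cnt_Blk_tail K n)
  -- the final bound
  set C : ℝ := L * 2 ^ L * δ * L + L * (LK K * 2 ^ LK K) * δ * (L + LK K) +
    L * (2 * (1 / 2 : ℝ) ^ K) * L with hC
  have hC0 : 0 ≤ C := by positivity
  have hfin : ∀ n ≥ N, ∑ i ∈ Finset.range n, dist (f^[i] z) (x i) ≤ 3 * (ε / 8) * n + C := by
    intro n hn
    have h1 := trace_bound L x z n
    have h2 := cnt_Bad L x n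
    have h3 := hch (n + L)
    have h4 := hEr (n + L) (by omega)
    have h5 := hEr (n + L + LK K) (by omega)
    push_cast at h3 h4 h5
    have hn0 : (0 : ℝ) ≤ n := by positivity
    calc ∑ i ∈ Finset.range n, dist (f^[i] z) (x i)
        ≤ n * (1 / 2) ^ L + cnt (Bad L x) n + L * cnt (fun p => z.1 p ≠ wd x p) (n + L) := h1
      _ ≤ n * (ε / 8) + L * (2 ^ L * (δ * (n + L))) +
          L * (LK K * (2 ^ LK K * (δ * (n + L + LK K))) + (n + L) * (2 * (1 / 2) ^ K)) := by
          have e1 : (cnt (Bad L x) n : ℝ) ≤ L * (2 ^ L * (δ * (n + L))) :=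
            h2.trans (by gcongr)
          have e2 : (cnt (fun p => z.1 p ≠ wd x p) (n + L) : ℝ) ≤
              LK K * (2 ^ LK K * (δ * (n + L + LK K))) + (n + L) * (2 * (1 / 2) ^ K) :=
            h3.trans (by gcongr)
          have e3 : (n : ℝ) * (1 / 2) ^ L ≤ n * (ε / 8) := by gcongr
          have e4 : (L : ℝ) * cnt (fun p => z.1 p ≠ wd x p) (n + L) ≤
              L * (LK K * (2 ^ LK K * (δ * (n + L + LK K))) + (n + L) * (2 * (1 / 2) ^ K)) :=
            mul_le_mul_of_nonneg_left e2 (by positivity)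
          linarith
      _ = n * (ε / 8) + (δ * A) * n + (L * (2 * (1 / 2 : ℝ) ^ K)) * n + C := by
          rw [hA, hC]; ring
      _ ≤ n * (ε / 8) + (ε / 8) * n + (ε / 8) * n + C := by gcongr
      _ = _ := by ring
  have hev : ∀ᶠ n : ℕ in atTop,
      (∑ i ∈ Finset.range n, dist (f^[i] z) (x i)) / (n : ℝ) ≤ ε / 2 := by
    obtain ⟨N', hN'⟩ := exists_nat_ge (C / (ε / 8))
    filter_upwards [eventually_ge_atTop (max N (N' + 1))] with n hn
    have h1 := hfin n ((le_max_left _ _).trans hn)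
    have h2 : N' + 1 ≤ n := (le_max_right _ _).trans hn
    have hn0 : (0 : ℝ) < n := by exact_mod_cast (by omega : 0 < n)
    have h3 : (N' : ℝ) ≤ n := by exact_mod_cast (by omega : N' ≤ n)
    rw [div_le_iff₀ hn0]
    rw [div_le_iff₀ (by positivity)] at hN'
    nlinarith
  have hle : limsup (fun n : ℕ => (∑ i ∈ Finset.range n, dist (f^[i] z) (x i)) / (n : ℝ)) atTop
      ≤ ε / 2 := by
    refine limsup_le_of_le ?_ hev
    exact (isBoundedUnder_of ⟨0, fun n => by
      change (0 : ℝ) ≤ _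
      exact div_nonneg (Finset.sum_nonneg fun _ _ => dist_nonneg) (by positivity)⟩ :
      IsBoundedUnder (· ≥ ·) atTop _).isCoboundedUnder_le
  linarith

/-! ### The asymptotic average shadowing property -/

/-- the times at which the level is raised -/
def Nq (T : ℕ → ℕ) : ℕ → ℕ
  | 0 => 0
  | K + 1 => Nq T K + M K + T (K + 1)

lemma M_pos (k : ℕ) : 0 < M k := by unfold M; have := h_pos k; omega

lemma le_Nq (T : ℕ → ℕ) (K : ℕ) : K ≤ Nq T K := by
  induction K with
  | zero => simp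
  | succ K ih =>
    have := M_pos K
    change K + 1 ≤ Nq T K + M K + T (K + 1)
    omega

lemma Nq_mono (T : ℕ → ℕ) : Monotone (Nq T) := by
  refine monotone_nat_of_le_succ fun K => ?_
  change Nq T K ≤ Nq T K + M K + T (K + 1)
  omega

/-- the level function -/
def lev (T : ℕ → ℕ) (p : ℕ) : ℕ := Nat.findGreatest (fun K => Nq T K ≤ p) p

lemma Nq_lev (T : ℕ → ℕ) (p : ℕ) : Nq T (lev T p) ≤ p :=
  Nat.findGreatest_spec (P := fun K => Nq T K ≤ p) (Nat.zero_le p) (Nat.zero_le p)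

lemma le_lev {T : ℕ → ℕ} {K p : ℕ} (hK : Nq T K ≤ p) : K ≤ lev T p :=
  Nat.le_findGreatest ((le_Nq T K).trans hK) hK

lemma lev_lt {T : ℕ → ℕ} {K p : ℕ} (hK : p < Nq T K) : lev T p < K := by
  by_contra hcon
  push Not at hcon
  have := Nq_mono T hcon
  have := Nq_lev T p
  omega

lemma lev_slow (T : ℕ → ℕ) (p j : ℕ) (hj : lev T p < j) (q : ℕ) (hq : q ≤ p + M j) :
    lev T q ≤ j := by
  have h1 : p < Nq T j := by
    by_contra hcon
    push Not at hcon
    have := le_lev hcon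
    omega
  have h2 : q < Nq T (j + 1) := by
    change q < Nq T j + M j + T (j + 1)
    omega
  have := lev_lt h2
  omega

lemma lev_mono {T : ℕ → ℕ} {p q : ℕ} (hpq : p ≤ q) : lev T p ≤ lev T q :=
  le_lev ((Nq_lev T p).trans hpq)

theorem aasp : AASP f := by
  intro x hx
  -- small errors
  have hEr : ∀ η : ℝ, 0 < η → ∀ᶠ n : ℕ in atTop, Er x n ≤ η * n := by
    intro η hη
    filter_upwards [hx.eventually (eventually_lt_nhds hη), eventually_gt_atTop 0] with n hn hn0
    have hn0' : (0 : ℝ) < n := by exact_mod_cast hn0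
    rw [div_lt_iff₀ hn0'] at hn
    exact hn.le
  have hBad : ∀ L : ℕ, ∀ η : ℝ, 0 < η → ∀ᶠ n : ℕ in atTop, (cnt (Bad L x) n : ℝ) ≤ η * n := by
    intro L η hη
    have h1 := hEr (η / (2 * (L * 2 ^ L + 1))) (by positivity)
    have h2 := (tendsto_add_atTop_nat L).eventually h1
    filter_upwards [h2, eventually_ge_atTop L] with n hn hnL
    have hnL' : (L : ℝ) ≤ n := by exact_mod_cast hnL
    push_cast at hn
    calc (cnt (Bad L x) n : ℝ) ≤ L * (2 ^ L * Er x (n + L)) := cnt_Bad L x n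
      _ ≤ L * (2 ^ L * (η / (2 * (L * 2 ^ L + 1)) * (n + n))) := by
          gcongr
          exact hn.trans (by gcongr)
      _ = (L * 2 ^ L) / (L * 2 ^ L + 1) * (η * n) := by
          field_simp; ring
      _ ≤ 1 * (η * n) := by
          gcongr
          rw [div_le_one (by positivity)]
          linarith
      _ = η * n := one_mul _
  have hT : ∀ K : ℕ, ∃ T : ℕ, ∀ n ≥ T, (cnt (Bad (LK K) x) n : ℝ) ≤ (1 / 2) ^ K * n := fun K =>
    eventually_atTop.1 (hBad (LK K) ((1 / 2) ^ K) (by positivity))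
  choose T hT using hT
  let κ := lev T
  let z : X := ⟨fix (wd x) κ, good_fix _ _ (fun p j hj q hq => lev_slow T p j hj q hq)⟩
  refine ⟨z, ?_⟩
  -- changes have density zero
  have hch : ∀ η : ℝ, 0 < η → ∀ᶠ n : ℕ in atTop,
      (cnt (fun p => z.1 p ≠ wd x p) n : ℝ) ≤ η * n := by
    intro η hη
    obtain ⟨K, hK⟩ := exists_pow_lt_of_lt_one (by positivity : 0 < η / 8)
      (by norm_num : (1 / 2 : ℝ) < 1)
    obtain ⟨N', hN'⟩ := exists_nat_ge (Nq T (K + 1) / (η / 8))
    filter_upwards [eventually_ge_atTop (max (Nq T (K + 1)) N')] with n hn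
    have hn1 : Nq T (K + 1) ≤ n := (le_max_left _ _).trans hn
    have hn2 : (N' : ℝ) ≤ n := by exact_mod_cast (le_max_right _ _).trans hn
    have hκn : K + 1 ≤ κ n := le_lev hn1
    have h1 : cnt (fun p => z.1 p ≠ wd x p) n ≤ cnt (Bad (LK (κ n)) x) n +
        (cnt (fun p => ∃ j, K ≤ j ∧ Blk j p) n + Nq T (K + 1)) := by
      refine (cnt_mono (B := fun p => Bad (LK (κ n)) x p ∨
        ((∃ j, K ≤ j ∧ Blk j p) ∨ p < Nq T (K + 1))) fun p hpn hp => ?_).trans
        ((cnt_or _ _ n).trans (Nat.add_le_add_left ((cnt_or _ _ n).trans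
          (Nat.add_le_add_left ?_ _)) _))
      · rcases fix_ne hp with hb | ⟨j, hj1, hj2⟩
        · exact Or.inl (Bad_mono (LK_mono (lev_mono hpn.le)) hb)
        · right
          by_cases hpK : p < Nq T (K + 1)
          · exact Or.inr hpK
          · left
            have : K + 1 ≤ κ p := le_lev (not_lt.1 hpK)
            exact ⟨j, by omega, hj2⟩
      · have : F (fun p => p < Nq T (K + 1)) n ⊆ Finset.range (Nq T (K + 1)) := fun p hp =>
          Finset.mem_range.2 (mem_F.1 hp).2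
        exact (Finset.card_le_card this).trans (by simp)
    have h2 : (cnt (Bad (LK (κ n)) x) n : ℝ) ≤ (1 / 2) ^ (κ n) * n := by
      refine hT (κ n) n ?_
      obtain ⟨m, hm⟩ : ∃ m, κ n = m + 1 := ⟨κ n - 1, by omega⟩
      have h3 : Nq T (κ n) ≤ n := Nq_lev T n
      rw [hm] at h3 ⊢
      change Nq T m + M m + T (m + 1) ≤ n at h3
      change T (m + 1) ≤ n
      omega
    have h3 : (1 / 2 : ℝ) ^ (κ n) ≤ (1 / 2) ^ K :=
      pow_le_pow_of_le_one (by norm_num) (by norm_num) (by omega)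
    have h4 := cnt_Blk_tail K n
    have hn0 : (0 : ℝ) ≤ n := by positivity
    have h5 : (Nq T (K + 1) : ℝ) ≤ η / 8 * n := by
      rw [div_le_iff₀ (by positivity)] at hN'
      nlinarith
    calc (cnt (fun p => z.1 p ≠ wd x p) n : ℝ) ≤ cnt (Bad (LK (κ n)) x) n +
        (cnt (fun p => ∃ j, K ≤ j ∧ Blk j p) n + Nq T (K + 1)) := by exact_mod_cast h1
      _ ≤ (η / 8) * n + (n * (2 * (η / 8)) + η / 8 * n) := by
          have e1 : (1 / 2 : ℝ) ^ (κ n) * n ≤ (η / 8) * n := by
            gcongr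
            exact h3.trans hK.le
          have e2 : (n : ℝ) * (2 * (1 / 2) ^ K) ≤ n * (2 * (η / 8)) := by gcongr
          linarith
      _ ≤ η * n := by nlinarith
  rw [Metric.tendsto_atTop]
  intro ε hε
  obtain ⟨L, hL⟩ := exists_pow_lt_of_lt_one (by positivity : 0 < ε / 4)
    (by norm_num : (1 / 2 : ℝ) < 1)
  have h1 := hBad L (ε / 4) (by positivity)
  have h2 := (tendsto_add_atTop_nat L).eventually (hch (ε / (8 * (L + 1))) (by positivity))
  obtain ⟨N, hN⟩ := eventually_atTop.1 (h1.and (h2.and (eventually_ge_atTop (L + 1))))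
  refine ⟨N, fun n hn => ?_⟩
  obtain ⟨e1, e2, e3⟩ := hN n hn
  have hn0 : (0 : ℝ) < n := by exact_mod_cast (by omega : 0 < n)
  have hnL : (L : ℝ) ≤ n := by exact_mod_cast (by omega : L ≤ n)
  rw [Real.dist_eq, sub_zero, abs_of_nonneg
    (div_nonneg (Finset.sum_nonneg fun _ _ => dist_nonneg) hn0.le), div_lt_iff₀ hn0]
  push_cast at e2
  calc ∑ i ∈ Finset.range n, dist (f^[i] z) (x i)
      ≤ n * (1 / 2) ^ L + cnt (Bad L x) n + L * cnt (fun p => z.1 p ≠ wd x p) (n + L) :=
        trace_bound L x z n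
    _ ≤ n * (ε / 4) + ε / 4 * n + L * (ε / (8 * (L + 1)) * (n + n)) := by
        have e4 : (L : ℝ) * cnt (fun p => z.1 p ≠ wd x p) (n + L) ≤
            L * (ε / (8 * (L + 1)) * (n + n)) := by
          gcongr
          exact e2.trans (by gcongr)
        have e5 : (n : ℝ) * (1 / 2) ^ L ≤ n * (ε / 4) := by gcongr
        linarith
    _ = n * (ε / 4) + ε / 4 * n + (L / (L + 1)) * (ε / 4 * n) := by
        field_simp; ring
    _ ≤ n * (ε / 4) + ε / 4 * n + 1 * (ε / 4 * n) := by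
        gcongr
        rw [div_le_one (by positivity)]
        linarith
    _ < ε * n := by nlinarith

/-! ## The invariant measure of full support -/

/-- the cylinder of length `L` around `D` -/
def Cyl (D : X) (L : ℕ) : Set X := {x | ∀ t < L, x.1 t = D.1 t}

lemma isClopen_Cyl (D : X) (L : ℕ) : IsClopen (Cyl D L) := by
  have h1 : Cyl D L = ⋂ t ∈ Finset.range L, (fun x : X => x.1 t) ⁻¹' {D.1 t} := by
    ext x
    simp [Cyl]
  rw [h1]
  refine isClopen_biInter_finset fun t _ => ?_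
  exact (isClopen_discrete _).preimage ((continuous_coord t).comp continuous_subtype_val)

/-- the periodically repeated word with inserted blocks -/
noncomputable def rep (D : X) (L k₁ : ℕ) (p : ℕ) : Bool := by
  classical
  exact decide (D.1 (p % (4 * h k₁)) = true ∧ p % (4 * h k₁) < L ∧ ∀ k, k₁ < k → ¬ Blk k p)

lemma rep_true {D : X} {L k₁ p : ℕ} : rep D L k₁ p = true ↔
    D.1 (p % (4 * h k₁)) = true ∧ p % (4 * h k₁) < L ∧ ∀ k, k₁ < k → ¬ Blk k p := by
  classical
  unfold rep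
  exact decide_eq_true_iff

lemma good_rep (D : X) {L k₁ : ℕ} (hL : L ≤ k₁) : Good (rep D L k₁) := by
  intro p hp k
  obtain ⟨h1, h2, h3⟩ := rep_true.1 hp
  rcases le_or_gt k k₁ with hk | hk
  · obtain ⟨q, hq1, hq2, hq3⟩ := D.2 _ h1 k
    have hdm := Nat.div_add_mod p (4 * h k₁)
    set r := p % (4 * h k₁) with hr
    set m := p / (4 * h k₁) with hm
    refine ⟨4 * h k₁ * m + q, by omega, by omega, fun i hi => ?_⟩
    by_contra hcon
    rw [Bool.not_eq_false] at hcon
    have h4 := (rep_true.1 hcon).1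
    have h5 : q + i < 4 * h k₁ := by
      have e1 := M_mono hk
      have e2 := lt_h k₁
      unfold M at e1 hq2
      omega
    rw [add_assoc, Nat.mul_add_mod, Nat.mod_eq_of_lt h5, hq3 i hi] at h4
    exact absurd h4 (by simp)
  · have hpos := h_pos k
    have hdm := Nat.div_add_mod p (h k)
    have hml := Nat.mod_lt p hpos
    set m := p / h k with hm
    refine ⟨h k * (m + 1), ?_, ?_, fun i hi => ?_⟩
    · rw [Nat.mul_add, mul_one]; omega
    · rw [Nat.mul_add, mul_one]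
      unfold M
      omega
    · by_contra hcon
      rw [Bool.not_eq_false] at hcon
      have h4 := (rep_true.1 hcon).2.2 k hk
      have hkh := lt_h k
      refine h4 ⟨?_, ?_⟩
      · rw [Nat.mul_add, mul_one]; omega
      · rw [Nat.mul_add_mod, Nat.mod_eq_of_lt (by omega)]
        exact hi

lemma cnt_hit {L k₁ : ℕ} (hk₁ : 1 ≤ k₁) (hL : L ≤ k₁) (n : ℕ) :
    (cnt (fun p => ∃ t < L, ∃ k, k₁ + 1 ≤ k ∧ Blk k (p + t)) n : ℝ) ≤
      (n + L) / (16 * h k₁) := by
  have hpos : (0 : ℝ) < h k₁ := by exact_mod_cast h_pos k₁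
  have h1 := cnt_exists_shift (fun p => ∃ k, k₁ + 1 ≤ k ∧ Blk k p) L n
  have h2 : cnt (fun p => ∃ k, k₁ + 1 ≤ k ∧ Blk k p) (n + L) ≤
      ∑ k ∈ Finset.Ico (k₁ + 1) (n + L), cnt (Blk k) (n + L) := by
    refine le_trans (Finset.card_le_card
      (t := (Finset.Ico (k₁ + 1) (n + L)).biUnion fun j => F (Blk j) (n + L)) ?_)
      Finset.card_biUnion_le
    intro p hp
    obtain ⟨hpn, j, hKj, hj⟩ := mem_F.1 hp
    rw [Finset.mem_biUnion]
    have := lt_h j
    have := hj.1
    exact ⟨j, Finset.mem_Ico.2 ⟨hKj, by omega⟩, mem_F.2 ⟨hpn, hj⟩⟩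
  have h3 : ∀ k ∈ Finset.Ico (k₁ + 1) (n + L), (L : ℝ) * cnt (Blk k) (n + L) ≤
      (n + L) / (8 * h k₁) * (1 / 2) ^ k := by
    intro k hk
    have hk' := (Finset.mem_Ico.1 hk).1
    have hkpos : (0 : ℝ) < h k := by exact_mod_cast h_pos k
    have e1 : (cnt (Blk k) (n + L) : ℝ) ≤ (((n + L) / h k : ℕ) : ℝ) * k := by
      exact_mod_cast cnt_Blk k (n + L)
    have e2 : (((n + L) / h k : ℕ) : ℝ) ≤ ((n + L : ℕ) : ℝ) / h k := Nat.cast_div_le
    have e3 : ((L : ℝ) * k * 2 ^ k * (8 * h k₁)) ≤ h k := by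
      exact_mod_cast ratio hk₁ hL (by omega : k₁ < k)
    have e4 : (L : ℝ) * k / h k ≤ 1 / (8 * h k₁) * (1 / 2) ^ k := by
      rw [one_div_pow, one_div_mul_one_div, div_le_div_iff₀ hkpos (by positivity), one_mul]
      calc (L : ℝ) * k * (8 * h k₁ * 2 ^ k) = (L : ℝ) * k * 2 ^ k * (8 * h k₁) := by ring
        _ ≤ h k := e3
    push_cast at e2
    calc (L : ℝ) * cnt (Blk k) (n + L) ≤ L * (((n : ℝ) + L) / h k * k) := by
          gcongr
          exact e1.trans (by gcongr)
      _ = (n + L) * ((L : ℝ) * k / h k) := by ring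
      _ ≤ (n + L) * (1 / (8 * h k₁) * (1 / 2) ^ k) := by gcongr
      _ = _ := by ring
  calc (cnt (fun p => ∃ t < L, ∃ k, k₁ + 1 ≤ k ∧ Blk k (p + t)) n : ℝ)
      ≤ L * ∑ k ∈ Finset.Ico (k₁ + 1) (n + L), (cnt (Blk k) (n + L) : ℝ) := by
        exact_mod_cast h1.trans (Nat.mul_le_mul_left L h2)
    _ = ∑ k ∈ Finset.Ico (k₁ + 1) (n + L), (L : ℝ) * cnt (Blk k) (n + L) := by
        rw [Finset.mul_sum]
    _ ≤ ∑ k ∈ Finset.Ico (k₁ + 1) (n + L), (n + L) / (8 * h k₁) * (1 / 2 : ℝ) ^ k :=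
        Finset.sum_le_sum h3
    _ = (n + L) / (8 * h k₁) * ∑ k ∈ Finset.Ico (k₁ + 1) (n + L), (1 / 2 : ℝ) ^ k := by
        rw [Finset.mul_sum]
    _ ≤ (n + L) / (8 * h k₁) * (2 * (1 / 2) ^ (k₁ + 1)) := by
        gcongr
        exact geom_tail _ _
    _ ≤ (n + L) / (8 * h k₁) * (1 / 2) := by
        gcongr
        have : (1 / 2 : ℝ) ^ k₁ ≤ (1 / 2) ^ 1 :=
          pow_le_pow_of_le_one (by norm_num) (by norm_num) hk₁
        rw [pow_succ]
        linarith
    _ = _ := by field_simp; ring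

lemma cnt_mult {P : ℕ} (hP : 0 < P) (n : ℕ) : (n : ℝ) / P - 1 ≤ cnt (fun p => p % P = 0) n := by
  have h1 : n / P ≤ cnt (fun p => p % P = 0) n := by
    have h2 : (Finset.range (n / P)).card ≤ cnt (fun p => p % P = 0) n := by
      refine Finset.card_le_card_of_injOn (fun m => P * m) (fun m hm => ?_) (fun a _ b _ hab => ?_)
      · have hm' := Finset.mem_range.1 (Finset.mem_coe.1 hm)
        refine Finset.mem_coe.2 (mem_F.2 ⟨?_, by simp⟩)
        calc P * m < P * (n / P) := Nat.mul_lt_mul_of_pos_left hm' hP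
          _ ≤ n := Nat.mul_div_le n P
      · exact Nat.eq_of_mul_eq_mul_left hP hab
    simpa using h2
  have hPr : (0 : ℝ) < P := by exact_mod_cast hP
  have h3 : (n : ℝ) < P * ((n / P : ℕ) : ℝ) + P := by
    have := Nat.div_add_mod n P
    have := Nat.mod_lt n hP
    have h4 : n < P * (n / P) + P := by omega
    exact_mod_cast h4
  have h5 : ((n / P : ℕ) : ℝ) ≤ cnt (fun p => p % P = 0) n := by exact_mod_cast h1
  rw [div_sub_one hPr.ne', div_le_iff₀ hPr]
  nlinarith

open Pool.Agent.V11108.KB in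
lemma visits_rep (D : X) {L k₁ : ℕ} (hk₁ : 1 ≤ k₁) (hL : L ≤ k₁) :
    ∀ᶠ n : ℕ in atTop, 1 / (16 * h k₁ : ℝ) * n ≤
      visits f (⟨rep D L k₁, good_rep D hL⟩ : X) (Cyl D L) n := by
  classical
  set y : X := ⟨rep D L k₁, good_rep D hL⟩ with hy
  have hpos : (0 : ℝ) < h k₁ := by exact_mod_cast h_pos k₁
  have hPpos : 0 < 4 * h k₁ := by have := h_pos k₁; omega
  -- multiples of the period not hit by a block are visits
  have h1 : ∀ n, cnt (fun p => p % (4 * h k₁) = 0) n ≤ visits f y (Cyl D L) n +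
      cnt (fun p => ∃ t < L, ∃ k, k₁ + 1 ≤ k ∧ Blk k (p + t)) n := by
    intro n
    have h2 : cnt (fun p => p % (4 * h k₁) = 0) n ≤ cnt (fun p => f^[p] y ∈ Cyl D L ∨
        ∃ t < L, ∃ k, k₁ + 1 ≤ k ∧ Blk k (p + t)) n := by
      refine cnt_mono fun p _ hp => ?_
      by_cases hex : ∃ t < L, ∃ k, k₁ + 1 ≤ k ∧ Blk k (p + t)
      · exact Or.inr hex
      · left
        push Not at hex
        intro t ht
        rw [iter_apply]
        have hmod : (p + t) % (4 * h k₁) = t := by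
          rw [Nat.add_mod, hp, zero_add, Nat.mod_mod, Nat.mod_eq_of_lt]
          have := lt_h k₁
          omega
        by_cases hD : D.1 t = true
        · rw [hD]
          change rep D L k₁ (p + t) = true
          rw [rep_true, hmod]
          exact ⟨hD, ht, fun k hk => hex t ht k (by omega)⟩
        · have : ¬ rep D L k₁ (p + t) = true := by
            intro hr
            have := (rep_true.1 hr).1
            rw [hmod] at this
            exact hD this
          rw [Bool.not_eq_true] at hD this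
          rw [hD]
          exact this
    refine h2.trans ((cnt_or _ _ n).trans (Nat.add_le_add_right ?_ _))
    unfold visits
    refine Finset.card_le_card fun p hp => ?_
    obtain ⟨h3, h4⟩ := mem_F.1 hp
    rw [Finset.mem_filter, Finset.mem_range]
    exact ⟨h3, h4⟩
  obtain ⟨N, hN⟩ := exists_nat_ge ((1 + L) * (16 * h k₁ : ℝ))
  filter_upwards [eventually_ge_atTop N] with n hn
  have hn' : (N : ℝ) ≤ n := by exact_mod_cast hn
  have h2 : (cnt (fun p => p % (4 * h k₁) = 0) n : ℝ) ≤ visits f y (Cyl D L) n +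
      cnt (fun p => ∃ t < L, ∃ k, k₁ + 1 ≤ k ∧ Blk k (p + t)) n := by exact_mod_cast h1 n
  have h3 := cnt_mult hPpos n
  have h4 := cnt_hit hk₁ hL n
  push_cast at h3
  have hn0 : (0 : ℝ) ≤ n := by positivity
  have h5 : (n : ℝ) / (4 * h k₁) = 4 * (1 / (16 * h k₁ : ℝ) * n) := by field_simp; ring
  have h6 : ((n : ℝ) + L) / (16 * h k₁) = 1 / (16 * h k₁ : ℝ) * n + 1 / (16 * h k₁ : ℝ) * L := by
    field_simp
  have h7 : 1 + (L : ℝ) ≤ 1 / (16 * h k₁ : ℝ) * n := by
    rw [one_div, inv_mul_eq_div, le_div_iff₀ (by positivity)]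
    linarith
  have h8 : 1 / (16 * h k₁ : ℝ) * L ≤ L := by
    have e1 : 1 / (16 * h k₁ : ℝ) ≤ 1 := by
      rw [div_le_one (by positivity)]
      have : (1 : ℝ) ≤ h k₁ := by exact_mod_cast h_pos k₁
      linarith
    have : (0 : ℝ) ≤ L := by positivity
    nlinarith
  rw [h5] at h3
  rw [h6] at h4
  linarith

theorem fullSupport : HasFullSupportMeasure f := by
  let _ : MeasurableSpace X := borel X
  have _ : BorelSpace X := ⟨rfl⟩
  have hne : Nonempty X := ⟨⟨fun _ => false, fun p hp => absurd hp (by simp)⟩⟩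
  obtain ⟨e, he⟩ := TopologicalSpace.exists_dense_seq X
  have hex : ∀ m : ℕ, ∃ μ : Measure X, IsProbabilityMeasure μ ∧ MeasurePreserving f μ μ ∧
      0 < μ (Cyl (e m.unpair.1) m.unpair.2) := by
    intro m
    have hk : m.unpair.2 ≤ m.unpair.2 + 1 := Nat.le_succ _
    obtain ⟨μ, h1, h2, h3⟩ := Pool.Agent.V11108.KB.krylov_bogoliubov f continuous_f _ _
      (isClopen_Cyl (e m.unpair.1) m.unpair.2) _
      (visits_rep (e m.unpair.1) (k₁ := m.unpair.2 + 1) (by omega) hk)
    refine ⟨μ, h1, h2, ?_⟩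
    have hpos : (0 : ℝ) < h (m.unpair.2 + 1) := by exact_mod_cast h_pos _
    have h4 : 0 < μ.real (Cyl (e m.unpair.1) m.unpair.2) := lt_of_lt_of_le (by positivity) h3
    exact (ENNReal.toReal_pos_iff.1 h4).1
  choose μ hμ1 hμ2 hμ3 using hex
  obtain ⟨ν, hν1, hν2, hν3⟩ := Pool.Agent.V11108.KB.mixture f continuous_f.measurable μ hμ1 hμ2
  refine ⟨borel X, ⟨rfl⟩, ν, hν1, hν2, fun U hU hUne => ?_⟩
  obtain ⟨n, hn⟩ := he.exists_mem_open hU hUne
  obtain ⟨r, hr, hball⟩ := Metric.isOpen_iff.1 hU (e n) hn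
  obtain ⟨L, hL⟩ := exists_pow_lt_of_lt_one hr (by norm_num : (1 / 2 : ℝ) < 1)
  have h1 := hν3 (Nat.pair n L) (Cyl (e (Nat.pair n L).unpair.1) (Nat.pair n L).unpair.2)
    (isClopen_Cyl _ _).isOpen.measurableSet (hμ3 _)
  refine h1.trans_le (measure_mono fun x hx => hball ?_)
  rw [Nat.unpair_pair] at hx
  rw [Metric.mem_ball]
  exact lt_of_le_of_lt ((distX_le_iff x (e n) L).2 hx) hL

/-! ## Minimal points -/

/-- the zero point -/
def zeroPt : X := ⟨fun _ => false, fun p hp => absurd hp (by simp)⟩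

lemma minimal_eq_zero (x : X) (hx : IsMinimalPoint f x) : x = zeroPt := by
  by_contra hne
  have hex : ∃ p, x.1 p = true := by
    by_contra hcon
    push Not at hcon
    apply hne
    apply Subtype.ext
    funext p
    exact Bool.eq_false_of_not_eq_true (hcon p)
  obtain ⟨p, hp⟩ := hex
  have hmem : zeroPt ∈ orbitClosure f x := by
    unfold orbitClosure
    rw [Metric.mem_closure_range_iff]
    intro ε hε
    obtain ⟨L, hL⟩ := exists_pow_lt_of_lt_one hε (by norm_num : (1 / 2 : ℝ) < 1)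
    obtain ⟨q, -, -, hq⟩ := x.2 p hp L
    refine ⟨q, lt_of_le_of_lt ((distX_le_iff _ _ L).2 fun i hi => ?_) hL⟩
    rw [iter_apply, hq i hi]
    rfl
  have h1 := hx {zeroPt} (Set.singleton_subset_iff.2 hmem) isClosed_singleton
    (Set.singleton_nonempty _) (by
      intro y hy
      rw [Set.mem_singleton_iff] at hy ⊢
      rw [hy]
      rfl)
  have h2 : x ∈ orbitClosure f x := subset_closure ⟨0, rfl⟩
  rw [← h1] at h2
  exact hne h2

theorem not_dense : ¬ Dense {x : X | IsMinimalPoint f x} := by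
  intro hd
  let e : X := ⟨fun i => decide (i = 0), by
    intro p hp k
    have hp0 : p = 0 := of_decide_eq_true hp
    subst hp0
    have := M_pos k
    refine ⟨1, by omega, ?_, fun i _ => ?_⟩
    · unfold M
      have := h_pos k
      omega
    · exact decide_eq_false (by omega)⟩
  have hopen : IsOpen {x : X | x.1 0 = true} := by
    have : IsClopen ((fun x : X => x.1 0) ⁻¹' {true}) :=
      (isClopen_discrete _).preimage ((continuous_coord 0).comp continuous_subtype_val)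
    exact this.isOpen
  obtain ⟨x, hx1, hx2⟩ := hd.exists_mem_open hopen ⟨e, by
    change decide (0 = 0) = true
    simp⟩
  have := minimal_eq_zero x hx1
  rw [this] at hx2
  exact absurd hx2 (by simp [zeroPt])

/-- **MP_9e49d7, Q1 and Q2 (negative answer).**  There is a compact system with the asymptotic
average shadowing property and the average shadowing property and an invariant Borel probability
measure of full support, whose minimal points are not dense. -/
theorem result : ∃ (X : Type) (_ : MetricSpace X) (_ : CompactSpace X) (f : X → X), Continuous f ∧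
    AASP f ∧ ASP f ∧ HasFullSupportMeasure f ∧ ¬ Dense {x : X | IsMinimalPoint f x} :=
  ⟨X, inferInstance, inferInstance, f, continuous_f, aasp, asp, fullSupport, not_dense⟩

end Pool.Agent.Results.MP_9e49d7_an.ZeroRuns
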